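import Mathlib
import Pool.Agent.R195.SGDyn

/-! # Marginally unstable pairs of matrices with arbitrarily slow (subpolynomial) growth

For every function `ψ` tending to infinity there is a pair of real `5 × 5` matrices whose discrete
linear switching system is marginally unstable and such that for all large `k`, all trajectories
satisfy `‖x k‖ ≤ ψ k * ‖x 0‖`. In particular there are marginally unstable systems, given by two
matrices, with subpolynomial growth. -/

set_option autoImplicit false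

namespace Pool.Agent.Results.MP_653f52_an.ArbitrarilySlowGrowth

open Filter Topology Matrix
open scoped Matrix.Norms.Operator

/-- The product `A (k-1) * ... * A 1 * A 0`. -/
def product {d : ℕ} (A : ℕ → Matrix (Fin d) (Fin d) ℝ) : ℕ → Matrix (Fin d) (Fin d) ℝ
  | 0 => 1
  | k + 1 => A k * product A k

/-- `x` is a trajectory of the discrete time system given by the set `S` of matrices:
`x (k+1) = A x (k)` with some `A ∈ S`, for every `k`. -/
def IsTrajectory {d : ℕ} (S : Set (Matrix (Fin d) (Fin d) ℝ)) (x : ℕ → Fin d → ℝ) : Prop :=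
  ∀ k, ∃ A ∈ S, x (k + 1) = A *ᵥ x k

/-- The joint spectral radius of `S` is `r`: the `k`-th root of the supremum of the (operator)
norms of the products of `k` elements of `S` tends to `r`. -/
def HasJointSpectralRadius {d : ℕ} (S : Set (Matrix (Fin d) (Fin d) ℝ)) (r : ℝ) : Prop :=
  Tendsto (fun k : ℕ => (sSup {t : ℝ | ∃ A : ℕ → Matrix (Fin d) (Fin d) ℝ,
    (∀ i, A i ∈ S) ∧ t = ‖product A k‖}) ^ (1 / (k : ℝ))) atTop (𝓝 r)

/-- Every trajectory is bounded. -/
def IsBoundedSystem {d : ℕ} (S : Set (Matrix (Fin d) (Fin d) ℝ)) : Prop :=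
  ∀ x, IsTrajectory S x → ∃ C, ∀ k, ‖x k‖ ≤ C

/-- The joint spectral radius is one and the system is not bounded. -/
def MarginallyUnstable {d : ℕ} (S : Set (Matrix (Fin d) (Fin d) ℝ)) : Prop :=
  HasJointSpectralRadius S 1 ∧ ¬ IsBoundedSystem S

/-- Every trajectory is `O(k ^ a)` for every `a > 0`. -/
def SubpolynomialGrowth {d : ℕ} (S : Set (Matrix (Fin d) (Fin d) ℝ)) : Prop :=
  ∀ x, IsTrajectory S x → ∀ a : ℝ, 0 < a → (fun k => ‖x k‖) =O[atTop] fun k : ℕ => (k : ℝ) ^ a

/-! ### Proof -/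

open Pool.Agent.R195.SG

lemma traj_cases {A B : Matrix (Fin 5) (Fin 5) ℝ} {x : ℕ → Fin 5 → ℝ}
    (hx : IsTrajectory {A, B} x) (k : ℕ) : x (k + 1) = A *ᵥ x k ∨ x (k + 1) = B *ᵥ x k := by
  obtain ⟨M, hM, h⟩ := hx k
  rcases hM with rfl | rfl
  · exact Or.inl h
  · exact Or.inr h

lemma product_traj {d : ℕ} {S : Set (Matrix (Fin d) (Fin d) ℝ)}
    {A : ℕ → Matrix (Fin d) (Fin d) ℝ} (hA : ∀ i, A i ∈ S) (v : Fin d → ℝ) :
    IsTrajectory S (fun k => product A k *ᵥ v) := by
  intro k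
  refine ⟨A k, hA k, ?_⟩
  simp only [product]
  rw [Matrix.mulVec_mulVec]

lemma norm_le_of_columns {M : Matrix (Fin 5) (Fin 5) ℝ} {b : ℝ}
    (h : ∀ v : Fin 5 → ℝ, ‖M *ᵥ v‖ ≤ b * ‖v‖) (hb : 0 ≤ b) : ‖M‖ ≤ 5 * b := by
  have h1 : ∀ i j, |M i j| ≤ b := by
    intro i j
    have h2 := h (Pi.single j 1)
    have h3 : ‖(Pi.single j (1:ℝ) : Fin 5 → ℝ)‖ = 1 := by rw [Pi.norm_single, norm_one]
    rw [h3, mul_one] at h2
    have h4 := norm_le_pi_norm (M *ᵥ Pi.single j (1:ℝ)) i
    rw [Matrix.mulVec_single_one] at h4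
    exact (h4.trans (by rwa [Matrix.mulVec_single_one] at h2))
  rw [Matrix.linfty_opNorm_def]
  have h5 : (Finset.univ.sup fun i => ∑ j, ‖M i j‖₊) ≤ (⟨5 * b, by positivity⟩ : NNReal) := by
    apply Finset.sup_le
    intro i _
    rw [← NNReal.coe_le_coe]
    push_cast
    calc ∑ j, ‖M i j‖ ≤ ∑ _j : Fin 5, b := Finset.sum_le_sum (fun j _ => h1 i j)
      _ = 5 * b := by simp
  exact_mod_cast h5

theorem result (ψ : ℕ → ℝ) (hψ : Tendsto ψ atTop atTop) :
    ∃ A B : Matrix (Fin 5) (Fin 5) ℝ, MarginallyUnstable {A, B} ∧ SubpolynomialGrowth {A, B} ∧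
      ∃ k₀ : ℕ, ∀ x, IsTrajectory {A, B} x → ∀ k ≥ k₀, ‖x k‖ ≤ ψ k * ‖x 0‖ := by
  -- a smaller function, at most logarithmic
  set φ : ℕ → ℝ := fun k => min (ψ k) (Real.log (k + 1)) with hφ
  have hlog : Tendsto (fun k : ℕ => Real.log ((k:ℝ) + 1)) atTop atTop :=
    Real.tendsto_log_atTop.comp (tendsto_atTop_add_const_right _ _ tendsto_natCast_atTop_atTop)
  have hφt : Tendsto φ atTop atTop := by
    rw [tendsto_atTop]
    intro B
    filter_upwards [tendsto_atTop.1 hψ B, tendsto_atTop.1 hlog B] with k h1 h2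
    exact le_min h1 h2
  have hex : ∀ M : ℕ, ∃ N : ℕ, ∀ k ≥ N, 80 * (M:ℝ) ^ 2 ≤ φ k := fun M =>
    eventually_atTop.1 (tendsto_atTop.1 hφt (80 * (M:ℝ) ^ 2))
  choose K hK using hex
  set a := 2 * Real.pi * al K w0
  set b := 2 * Real.pi * al K w1
  set c := 2 * Real.pi * be K w0
  set d := 2 * Real.pi * be K w1
  -- the uniform bound
  obtain ⟨k₀, hk₀⟩ : ∃ k₀ : ℕ, Q K 2 < k₀ := ⟨Q K 2 + 1, Nat.lt_succ_self _⟩
  have main : ∀ x, IsTrajectory {rotM a b, resM c d} x → ∀ k ≥ k₀, ‖x k‖ ≤ φ k * ‖x 0‖ := by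
    intro x hx k hk
    have hex : ∃ n : ℕ, 16 * Q K n * k ≤ Q K (n + 2) := by
      refine ⟨k, ?_⟩
      have h1 := Q_succ_ge K (k + 1)
      have h2 := Q_succ_ge' K k
      have h3 : k ≤ Q K k := (Nat.lt_two_pow_self.le).trans (two_pow_le_Q K k)
      have h4 := Q_pos K k
      rw [show k + 1 + 1 = k + 2 by ring] at h1
      have h5 : k ≤ Q K (k + 1) := by omega
      have h6 : Q K k ≤ Q K (k + 1) := by omega
      have h7 : Q K k * k ≤ Q K (k + 1) * Q K (k + 1) := Nat.mul_le_mul h6 h5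
      calc 16 * Q K k * k = 16 * (Q K k * k) := by ring
        _ ≤ 16 * (Q K (k + 1) * Q K (k + 1)) := Nat.mul_le_mul_left _ h7
        _ = 16 * (Q K (k + 1)) ^ 2 := by ring
        _ ≤ _ := h1
    obtain ⟨n, hn, hmin⟩ : ∃ n : ℕ, 16 * Q K n * k ≤ Q K (n + 2) ∧
        ∀ m < n, ¬ 16 * Q K m * k ≤ Q K (m + 2) := by
      classical
      exact ⟨Nat.find hex, Nat.find_spec hex, fun m hm => Nat.find_min hex hm⟩
    have hn0 : n ≠ 0 := by
      rintro rfl
      have hQ0 := Q_pos K 0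
      simp only [zero_add] at hn
      nlinarith
    obtain ⟨m, rfl⟩ := Nat.exists_eq_succ_of_ne_zero hn0
    have hm := hmin m (Nat.lt_succ_self m)
    push Not at hm
    have hkK : K (Q K (m + 1)) ≤ k := by
      have h1 := Q_succ K (m + 1)
      rw [show m + 1 + 1 = m + 2 by ring] at h1
      rw [h1] at hm
      have h2 := Q_succ_ge' K m
      have h3 := Q_pos K m
      have h4 := Q_pos K (m + 1)
      by_contra hcon
      push Not at hcon
      have h5 : Q K m ≤ (Q K (m + 1)) ^ 2 := by nlinarith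
      have h6 : Q K m * k ≤ (Q K (m + 1)) ^ 2 * (K (Q K (m + 1)) + 1) :=
        Nat.mul_le_mul h5 (by omega)
      nlinarith
    have h80 := hK (Q K (m + 1)) k hkK
    set η : ℝ := 1 / (16 * (Q K (m + 1) : ℝ) ^ 2) with hη
    have hQr := Qr_pos K (m + 1)
    have hQ1 : (1:ℝ) ≤ Q K (m + 1) := by exact_mod_cast Q_pos K (m + 1)
    have hηpos : 0 < η := by positivity
    have hη1 : η ≤ 1 := by
      rw [hη, div_le_one (by positivity)]; nlinarith
    have hf : ∀ q ≤ k, |ff a b c d q| ≤ 1 - η := by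
      intro q hq
      exact F_le K (m + 1) q ((Nat.mul_le_mul_left _ hq).trans hn)
    have h7 := traj_bound hηpos hη1 hf (traj_cases hx)
    refine h7.trans ?_
    have h8 : 5 * ‖x 0‖ / η = 80 * (Q K (m + 1) : ℝ) ^ 2 * ‖x 0‖ := by
      rw [hη]; field_simp; ring
    rw [h8]
    exact mul_le_mul_of_nonneg_right h80 (norm_nonneg _)
  refine ⟨rotM a b, resM c d, ⟨?_, ?_⟩, ?_, k₀, ?_⟩
  · -- the joint spectral radius
    have hlow : ∀ k : ℕ, 1 ≤ ‖product (fun _ => rotM a b) k‖ := by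
      intro k
      have h1 : product (fun _ => rotM a b) k *ᵥ ![1, 0, 0, 0, 0] = ![1, 0, 0, 0, 0] := by
        induction k with
        | zero => simp [product]
        | succ k ih =>
          simp only [product]
          rw [← Matrix.mulVec_mulVec, ih, rotM_mulVec]
          simp
      have h2 := Matrix.linfty_opNorm_mulVec (product (fun _ => rotM a b) k)
        (![1, 0, 0, 0, 0] : Fin 5 → ℝ)
      rw [h1] at h2
      have h3 : 0 < ‖(![1, 0, 0, 0, 0] : Fin 5 → ℝ)‖ := by
        rw [norm_pos_iff]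
        intro h
        have := congrFun h 0
        simp at this
      exact (le_mul_iff_one_le_left h3).1 h2
    have hup : ∀ k ≥ k₀, ∀ A : ℕ → Matrix (Fin 5) (Fin 5) ℝ,
        (∀ i, A i ∈ ({rotM a b, resM c d} : Set _)) → ‖product A k‖ ≤ 5 * φ k := by
      intro k hk A hA
      have h1 : ∀ v : Fin 5 → ℝ, ‖product A k *ᵥ v‖ ≤ φ k * ‖v‖ := by
        intro v
        have := main _ (product_traj hA v) k hk
        simpa [product] using this
      refine norm_le_of_columns h1 ?_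
      have h2 := h1 (fun _ => 1)
      have h3 : ‖(fun _ => 1 : Fin 5 → ℝ)‖ = 1 := by simp
      rw [h3, mul_one] at h2
      exact (norm_nonneg _).trans h2
    have hS : ∀ k ≥ k₀, 1 ≤ sSup {t : ℝ | ∃ A : ℕ → Matrix (Fin 5) (Fin 5) ℝ,
          (∀ i, A i ∈ ({rotM a b, resM c d} : Set _)) ∧ t = ‖product A k‖} ∧
        sSup {t : ℝ | ∃ A : ℕ → Matrix (Fin 5) (Fin 5) ℝ,
          (∀ i, A i ∈ ({rotM a b, resM c d} : Set _)) ∧ t = ‖product A k‖} ≤ 5 * φ k := by
      intro k hk
      have hmem : ‖product (fun _ => rotM a b) k‖ ∈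
          {t : ℝ | ∃ A : ℕ → Matrix (Fin 5) (Fin 5) ℝ,
          (∀ i, A i ∈ ({rotM a b, resM c d} : Set _)) ∧ t = ‖product A k‖} :=
        ⟨fun _ => rotM a b, fun _ => Or.inl rfl, rfl⟩
      have hbd : ∀ t ∈ {t : ℝ | ∃ A : ℕ → Matrix (Fin 5) (Fin 5) ℝ,
          (∀ i, A i ∈ ({rotM a b, resM c d} : Set _)) ∧ t = ‖product A k‖}, t ≤ 5 * φ k := by
        rintro t ⟨A, hA, rfl⟩
        exact hup k hk A hA
      exact ⟨(hlow k).trans (le_csSup ⟨_, hbd⟩ hmem), csSup_le ⟨_, hmem⟩ hbd⟩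
    -- the upper function
    have hlim : Tendsto (fun k : ℕ => ((5:ℝ) ^ (1 / (k:ℝ))) * ((k:ℝ) ^ (1 / (k:ℝ)))) atTop
        (𝓝 (1 * 1)) := by
      apply Tendsto.mul
      · have h1 : Tendsto (fun k : ℕ => (1:ℝ) / k) atTop (𝓝 0) := tendsto_one_div_atTop_nhds_zero_nat
        have h2 := (Real.continuousAt_const_rpow (a := (5:ℝ)) (b := 0) (by norm_num)).tendsto.comp h1
        rw [Real.rpow_zero] at h2
        exact h2
      · exact tendsto_rpow_div.comp tendsto_natCast_atTop_atTop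
    rw [one_mul] at hlim
    refine tendsto_of_tendsto_of_tendsto_of_le_of_le' (tendsto_const_nhds (x := (1:ℝ))) hlim ?_ ?_
    · filter_upwards [eventually_ge_atTop k₀] with k hk
      exact Real.one_le_rpow (hS k hk).1 (by positivity)
    · filter_upwards [eventually_ge_atTop k₀, eventually_ge_atTop 1] with k hk hk1
      have hk1' : (1:ℝ) ≤ k := by exact_mod_cast hk1
      rw [← Real.mul_rpow (by norm_num) (by positivity)]
      apply Real.rpow_le_rpow (by linarith [(hS k hk).1]) _ (by positivity)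
      refine (hS k hk).2.trans ?_
      apply mul_le_mul_of_nonneg_left _ (by norm_num)
      refine (min_le_right _ _).trans ?_
      have := Real.log_le_sub_one_of_pos (x := (k:ℝ) + 1) (by positivity)
      linarith
  · -- unboundedness
    intro hb
    obtain ⟨C, hC⟩ := hb (tr a b c d) (fun k => by
      rcases tr_step a b c d k with h | h
      · exact ⟨_, Or.inl rfl, h⟩
      · exact ⟨_, Or.inr rfl, h⟩)
    exact tr_unbounded (F_near K) ⟨C, hC⟩
  · -- subpolynomial growth
    intro x hx r hr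
    have h1 : (fun k => ‖x k‖) =O[atTop] fun k : ℕ => Real.log ((k:ℝ) + 1) := by
      apply Asymptotics.IsBigO.of_bound ‖x 0‖
      filter_upwards [eventually_ge_atTop k₀] with k hk
      have h2 := main x hx k hk
      have h3 : 0 ≤ Real.log ((k:ℝ) + 1) := Real.log_nonneg (by
        have : (0:ℝ) ≤ k := by positivity
        linarith)
      rw [norm_norm, Real.norm_of_nonneg h3, mul_comm]
      exact h2.trans (mul_le_mul_of_nonneg_right (min_le_right _ _) (norm_nonneg _))
    have h4 : (fun k : ℕ => Real.log ((k:ℝ) + 1)) =O[atTop] fun k : ℕ => ((k:ℝ) + 1) ^ r :=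
      ((isLittleO_log_rpow_atTop hr).comp_tendsto
        (tendsto_atTop_add_const_right _ 1 tendsto_natCast_atTop_atTop)).isBigO
    have h5 : (fun k : ℕ => ((k:ℝ) + 1) ^ r) =O[atTop] fun k : ℕ => (k:ℝ) ^ r := by
      apply Asymptotics.IsBigO.of_bound ((2:ℝ) ^ r)
      filter_upwards [eventually_ge_atTop 1] with k hk
      have hk' : (1:ℝ) ≤ k := by exact_mod_cast hk
      rw [Real.norm_of_nonneg (by positivity), Real.norm_of_nonneg (by positivity),
        ← Real.mul_rpow (by norm_num) (by positivity)]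
      exact Real.rpow_le_rpow (by positivity) (by linarith) hr.le
    exact h1.trans (h4.trans h5)
  · intro x hx k hk
    exact (main x hx k hk).trans (mul_le_mul_of_nonneg_right (min_le_left _ _) (norm_nonneg _))

end Pool.Agent.Results.MP_653f52_an.ArbitrarilySlowGrowth
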